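import Pool.Agent.Lib.MP_3d2465_an.Main

/-!
# MP_3d2465_an, Q1 (affirmative): adapted metrics for `k`-volume expansion

Let `M` be a (Hausdorff, σ-compact, finite-dimensional, boundaryless) smooth manifold, `f` a `C^1`
diffeomorphism of `M`, `Λ` a compact `f`-invariant set and `T_Λ M = EE ⊕ FF` a continuous
`Df`-invariant splitting. If all `k`-subspaces of `FF` are volume-expanding (for some continuous
Riemannian metric and some constant `C > 0`), then there is a `C^∞` Riemannian metric on `M`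
for which they are volume-expanding with constant `C = 1`.

Neither the domination of the splitting nor the contraction of `EE` is needed, so this contains
Q1 (a partially hyperbolic splitting is in particular a continuous invariant splitting).
-/

namespace Pool.Agent.Results.MP_3d2465_an.AdaptedMetric

open Bundle Manifold
open scoped ContDiff

variable {E : Type*} [NormedAddCommGroup E] [NormedSpace ℝ E]
  {M : Type*} [TopologicalSpace M] [ChartedSpace E M]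

/-- The norm of `v 0 ∧ ⋯ ∧ v (k-1) ∈ ∧^k T_x M` for the norm induced by the scalar product `g x`
on `T_x M`, that is, the square root of the Gram determinant `det (g x (v i) (v j))`. -/
noncomputable def kVol
    (g : ∀ x : M, TangentSpace 𝓘(ℝ, E) x →L[ℝ] TangentSpace 𝓘(ℝ, E) x →L[ℝ] ℝ)
    (x : M) {k : ℕ} (v : Fin k → TangentSpace 𝓘(ℝ, E) x) : ℝ :=
  √(Matrix.det (Matrix.of fun i j => g x (v i) (v j)))

/-- All `k`-subspaces of `FF` are volume-expanding over `Λ`, for the metric `g`, with constant `C`: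
for some `lam > 0`,
`‖(∧^k Df^n)(v 0 ∧ ⋯ ∧ v (k-1))‖ ≥ C * exp (lam * n) * ‖v 0 ∧ ⋯ ∧ v (k-1)‖`
for all `x ∈ Λ`, `n ≥ 1` and all `k`-tuples `v` in `FF x`. -/
def VolumeExpanding
    (g : ∀ x : M, TangentSpace 𝓘(ℝ, E) x →L[ℝ] TangentSpace 𝓘(ℝ, E) x →L[ℝ] ℝ)
    (f : M → M) (Λ : Set M) (FF : ∀ x : M, Submodule ℝ (TangentSpace 𝓘(ℝ, E) x))
    (k : ℕ) (C : ℝ) : Prop :=
  ∃ lam : ℝ, 0 < lam ∧ ∀ x ∈ Λ, ∀ n : ℕ, 1 ≤ n →
    ∀ v : Fin k → TangentSpace 𝓘(ℝ, E) x, (∀ i, v i ∈ FF x) →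
      C * Real.exp (lam * n) * kVol g x v ≤
        kVol g (f^[n] x) (fun i => mfderiv 𝓘(ℝ, E) 𝓘(ℝ, E) (f^[n]) x (v i))

variable [IsManifold 𝓘(ℝ, E) ∞ M]

/-- `T_Λ M = EE ⊕ FF` is a continuous `Df`-invariant splitting over `Λ`: `EE x` and `FF x` are
complementary, they are mapped by `Df_x` onto `EE (f x)`, `FF (f x)`, and the projection of
`T_x M` onto `FF x` along `EE x` depends continuously on `x ∈ Λ` (as a section of
`Hom(TM, TM)`). -/
structure ContinuousInvariantSplitting (f : M → M) (Λ : Set M)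
    (EE FF : ∀ x : M, Submodule ℝ (TangentSpace 𝓘(ℝ, E) x)) : Prop where
  isCompl : ∀ x ∈ Λ, IsCompl (EE x) (FF x)
  map_E : ∀ x ∈ Λ, (EE x).map (mfderiv 𝓘(ℝ, E) 𝓘(ℝ, E) f x).toLinearMap = EE (f x)
  map_F : ∀ x ∈ Λ, (FF x).map (mfderiv 𝓘(ℝ, E) 𝓘(ℝ, E) f x).toLinearMap = FF (f x)
  continuous : ∃ P : ∀ x : M, TangentSpace 𝓘(ℝ, E) x →L[ℝ] TangentSpace 𝓘(ℝ, E) x,
    (∀ x ∈ Λ, (∀ u ∈ EE x, P x u = 0) ∧ (∀ w ∈ FF x, P x w = w)) ∧
    ContinuousOn (fun x ↦ (TotalSpace.mk' (E →L[ℝ] E) x (P x) :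
      TotalSpace (E →L[ℝ] E)
        (fun x : M ↦ TangentSpace 𝓘(ℝ, E) x →L[ℝ] TangentSpace 𝓘(ℝ, E) x))) Λ

theorem result [FiniteDimensional ℝ E] [T2Space M] [SigmaCompactSpace M]
    (f : M ≃ₘ^1⟮𝓘(ℝ, E), 𝓘(ℝ, E)⟯ M) (Λ : Set M) (hΛ : IsCompact Λ) (hinv : f '' Λ = Λ)
    (EE FF : ∀ x : M, Submodule ℝ (TangentSpace 𝓘(ℝ, E) x))
    (hsplit : ContinuousInvariantSplitting f Λ EE FF) (k : ℕ)
    (g : ContinuousRiemannianMetric E (fun x : M ↦ TangentSpace 𝓘(ℝ, E) x))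
    (C : ℝ) (hC : 0 < C) (hexp : VolumeExpanding g.inner f Λ FF k C) :
    ∃ g' : ContMDiffRiemannianMetric 𝓘(ℝ, E) ∞ E (fun x : M ↦ TangentSpace 𝓘(ℝ, E) x),
      VolumeExpanding g'.inner f Λ FF k 1 := by
  obtain ⟨lam, hlam, hvol⟩ := hexp
  obtain ⟨P, hP, hPc⟩ := hsplit.continuous
  have hmap : Set.MapsTo f Λ Λ := fun x hx => by
    rw [← hinv]; exact Set.mem_image_of_mem f hx
  have hf : ContMDiff 𝓘(ℝ, E) 𝓘(ℝ, E) 1 f := f.contMDiff
  obtain ⟨g', lam', hlam', h⟩ := Lib.MP_3d2465_an.main_raw (Λ := Λ) hΛ.isClosed (EE := EE)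
    (FF := FF) (k := k) (f := f) hf hmap hsplit.isCompl
    (fun x hx u hu => by
      rw [← hsplit.map_E x hx]; exact Submodule.mem_map_of_mem hu)
    (fun x hx u hu => by
      rw [← hsplit.map_F x hx]; exact Submodule.mem_map_of_mem hu)
    (fun x _ => (f.mfderivToContinuousLinearEquiv one_ne_zero x).bijective)
    (g := g.inner) g.continuous.continuousOn
    (fun x _ => ⟨fun u v w => by simp, fun c u w => by simp, g.symm x, g.pos x⟩)
    (fun x hx => (hP x hx).1) (fun x hx => (hP x hx).2) hPc hC hlam hvol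
  refine ⟨g', lam', hlam', fun x hx n _ v hv => ?_⟩
  rw [one_mul]
  exact h x hx n v hv

end Pool.Agent.Results.MP_3d2465_an.AdaptedMetric
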